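import Pool.Agent.KS6_77.SigPseudo.Main

set_option autoImplicit false

namespace Pool.Agent.Results.MP_5b75f6_gt.UnboundedUnderLinear

open Set Cardinal

/-- every continuous real function on `Z` is bounded -/
def Pseudocompact (Z : Type) [TopologicalSpace Z] : Prop :=
  ∀ f : C(Z, ℝ), ∃ M : ℝ, ∀ z, |f z| ≤ M

/-- the topology of pointwise convergence on the continuous real functions -/
abbrev pointwise (Z : Type) [TopologicalSpace Z] : TopologicalSpace C(Z, ℝ) :=
  TopologicalSpace.induced (fun f : C(Z, ℝ) => (f : Z → ℝ)) inferInstance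

/-- `X` and `Y` are `l`-equivalent: `C_p(X)` and `C_p(Y)` are linearly homeomorphic -/
def LEquivalent (X Y : Type) [TopologicalSpace X] [TopologicalSpace Y] : Prop :=
  ∃ e : C(X, ℝ) ≃ₗ[ℝ] C(Y, ℝ),
    @Continuous _ _ (pointwise X) (pointwise Y) e ∧
      @Continuous _ _ (pointwise Y) (pointwise X) e.symm

/-- **`σ`-pseudocompactness fails under linear homeomorphism as badly as possible.**
For every cardinal `κ` there are Tychonoff spaces `X` and `Y` such that `C_p(X)` and `C_p(Y)` are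
linearly homeomorphic, `Y` is a countable union of pseudocompact subspaces, and every cover of `X`
by pseudocompact subspaces has at least `κ` members (up to countable covers): if `X` is the union
of subspaces `S i`, `i ∈ ι`, each pseudocompact, then `κ ≤ max #ι ℵ₀`. -/
theorem result (κ : Cardinal.{0}) :
    ∃ (X Y : Type) (_ : TopologicalSpace X) (_ : T35Space X) (_ : TopologicalSpace Y)
      (_ : T35Space Y), LEquivalent X Y ∧
      (∃ S : ℕ → Set Y, (⋃ n, S n) = Set.univ ∧ ∀ n, Pseudocompact (S n)) ∧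
      ∀ (ι : Type) (S : ι → Set X), (⋃ i, S i) = Set.univ → (∀ i, Pseudocompact (S i)) →
        κ ≤ max #ι ℵ₀ := by
  obtain ⟨A, hA, hκ⟩ : ∃ A : Type, Nonempty A ∧ κ ≤ #A := by
    refine ⟨κ.out ⊕ Unit, inferInstance, ?_⟩
    rw [mk_sum, lift_id, lift_id, mk_out]
    exact self_le_add_right _ _
  let z₀ : Pool.Agent.KS6_77.SigPseudo.L A := ⟨Classical.arbitrary A, 0⟩
  let k₀ := Pool.Agent.KS6_77.SigPseudo.r (A := A) z₀
  have hr := Pool.Agent.KS6_77.SigPseudo.hr (A := A)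
  have h' : ∀ u : Pool.Agent.KS6_77.SigPseudo.J A, ∃ p,
      Filter.Tendsto (ContinuousMap.const (Pool.Agent.KS6_77.SigPseudo.L A) k₀)
        (Pool.Agent.KS6_77.SigPseudo.Φ u) (nhds p) := fun _ => ⟨_, tendsto_const_nhds⟩
  refine ⟨Pool.Agent.H.MP_5b75f6.XX (Pool.Agent.KS6_77.SigPseudo.Φ (A := A))
      Pool.Agent.KS6_77.SigPseudo.r,
    Pool.Agent.H.MP_5b75f6.XX (Pool.Agent.KS6_77.SigPseudo.Φ (A := A)) (.const _ k₀),
    inferInstance, inferInstance, inferInstance, inferInstance,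
    ⟨Pool.Agent.KS6_77.SigPseudo.EL hr h', ?_, ?_⟩, Pool.Agent.KS6_77.SigPseudo.psY k₀, ?_⟩
  · exact continuous_induced_rng.2 (Pool.Agent.H.MP_5b75f6.Tc hr _)
  · exact continuous_induced_rng.2 (Pool.Agent.H.MP_5b75f6.Tc h' _)
  · intro ι S hS hps
    have h1 : (⋃ i, {a : A | ∃ t : ℚ, Pool.Agent.H.MP_5b75f6.i1
        (Pool.Agent.KS6_77.SigPseudo.Φ (A := A)) Pool.Agent.KS6_77.SigPseudo.r ⟨a, t⟩ ∈ S i}) =
        Set.univ := by
      refine eq_univ_of_forall fun a => ?_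
      obtain ⟨i, hi⟩ := mem_iUnion.1 (hS.ge (mem_univ (Pool.Agent.H.MP_5b75f6.i1
        (Pool.Agent.KS6_77.SigPseudo.Φ (A := A)) Pool.Agent.KS6_77.SigPseudo.r ⟨a, 0⟩)))
      exact mem_iUnion.2 ⟨i, 0, hi⟩
    calc κ ≤ #A := hκ
      _ = #(Set.univ : Set A) := mk_univ.symm
      _ ≤ #ι * ⨆ i, #{a : A | ∃ t : ℚ, Pool.Agent.H.MP_5b75f6.i1
          (Pool.Agent.KS6_77.SigPseudo.Φ (A := A)) Pool.Agent.KS6_77.SigPseudo.r ⟨a, t⟩ ∈ S i} := by
        rw [← h1]
        exact mk_iUnion_le _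
      _ ≤ #ι * ℵ₀ := by
        refine mul_le_mul_right (ciSup_le' fun i => ?_) _
        exact le_aleph0_iff_set_countable.2 (Pool.Agent.KS6_77.SigPseudo.cnt (hps i))
      _ ≤ max #ι ℵ₀ := by
        have := mul_le_max #ι ℵ₀
        simpa using this

end Pool.Agent.Results.MP_5b75f6_gt.UnboundedUnderLinear
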